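import Mathlib
import Pool.Agent.H740R3.BQMain

set_option autoImplicit false

namespace Pool.Agent.Results.MP_dc1b93_an.EveryBanachAdmissible

universe u

/-- `T` is hypercyclic: some orbit is dense -/
def Hypercyclic {X : Type u} [NormedAddCommGroup X] [NormedSpace ℂ X] (T : X →L[ℂ] X) : Prop :=
  ∃ x : X, Dense (Set.range (fun n : ℕ => (T ^ n) x))

/-- `T` is cyclic: the linear span of some orbit is dense -/
def Cyclic {X : Type u} [NormedAddCommGroup X] [NormedSpace ℂ X] (T : X →L[ℂ] X) : Prop :=
  ∃ x : X, Dense ((Submodule.span ℂ (Set.range (fun n : ℕ => (T ^ n) x)) : Submodule ℂ X) : Set X)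

/-- `T` is admissible: hypercyclic, with non-cyclic direct square, and spectrum `{1}` -/
def Admissible {X : Type u} [NormedAddCommGroup X] [NormedSpace ℂ X] (T : X →L[ℂ] X) : Prop :=
  Hypercyclic T ∧ ¬ Cyclic (T.prodMap T) ∧ spectrum ℂ T = {1}

/-- Every separable infinite-dimensional complex Banach space carries an admissible operator. -/
theorem result (X : Type u) [NormedAddCommGroup X] [NormedSpace ℂ X] [CompleteSpace X]
    [TopologicalSpace.SeparableSpace X] (hX : ¬ FiniteDimensional ℂ X) :
    ∃ T : X →L[ℂ] X, Admissible T :=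
  Pool.Agent.H740R3.BQ.every X hX

end Pool.Agent.Results.MP_dc1b93_an.EveryBanachAdmissible
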